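import Mathlib

/-!
# MP_993212_an: shift equivalence over `ℤ` of marked matrices gives strong shift equivalence over
`ℕ` after adding a large multiple of the marking

A marked matrix is a square integer matrix `N` with an integer column `x` and an integer row `y`.
If `(N, x, y)` and `(N', x', y')`, with `x, y, x', y'` entrywise positive, are joined by a chain of
marked shift equivalences over `ℤ` (`N R = R N'`, `S N = N' S`, `N ^ l = R S`, `N' ^ l = S R`,
`x = R x'`, `y' = y R`, through marked matrices with entries of any sign), then `N + g x y` and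
`N' + g x' y'` are strong shift equivalent over the nonnegative integers for all large `g`.

Proof.  `two_step`: if `A = R S`, `B = S R` over `ℤ` and there are nonnegative `W`, `V` with
`W V = S`, `R W ≥ 0`, `V R ≥ 0`, then `A = (R W) V`, `V (R W) = (V R) W`, `B = W (V R)` is a chain
over `ℕ`.  `single`: for `S + g x' y` such `W`, `V` exist for large `g`; the columns of `W` are `x'`
and the `t x' + e_i`.  A marked matrix with `y x > 0` but entries of any sign is replaced by a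
positive model with two more rows and columns, marked by the column `(1, …, 1)` and the row `y Rm`
(`Rm`, `Em`), and elementary equivalences over `ℤ` lift to the models (`middle`).  Marked shift
equivalences over `ℤ` are chains of marked elementary equivalences (`eqvGen_of_MSE`).
-/

set_option autoImplicit false

namespace Pool.Agent.Results.MP_993212_an.MarkedStrongShift

open Matrix

/-- Elementary equivalence of square matrices over `ℕ`: `A = R S`, `B = S R` for rectangular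
matrices `R`, `S` over `ℕ`. -/
def Elem (X Y : Σ n : ℕ, Matrix (Fin n) (Fin n) ℕ) : Prop :=
  ∃ (R : Matrix (Fin X.1) (Fin Y.1) ℕ) (S : Matrix (Fin Y.1) (Fin X.1) ℕ),
    X.2 = R * S ∧ Y.2 = S * R

/-- Strong shift equivalence over `ℕ` (a finite chain of elementary equivalences). -/
def SSE {n m : ℕ} (A : Matrix (Fin n) (Fin n) ℕ) (B : Matrix (Fin m) (Fin m) ℕ) : Prop :=
  Relation.TransGen Elem ⟨n, A⟩ ⟨m, B⟩

/-- A square integer matrix `N` with a column vector `x` and a row vector `y`. -/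
structure Marked where
  /-- the size -/
  n : ℕ
  /-- the matrix -/
  N : Matrix (Fin n) (Fin n) ℤ
  /-- the column vector -/
  x : Fin n → ℤ
  /-- the row vector -/
  y : Fin n → ℤ

/-- Elementary equivalence over `ℤ` of marked matrices: `N = R S`, `N' = S R`, `x = R x'`,
`y' = y R`. -/
def MElem (P Q : Marked) : Prop :=
  ∃ (R : Matrix (Fin P.n) (Fin Q.n) ℤ) (S : Matrix (Fin Q.n) (Fin P.n) ℤ),
    P.N = R * S ∧ Q.N = S * R ∧ P.x = R *ᵥ Q.x ∧ Q.y = P.y ᵥ* R

/-! ### Symmetry, reflexivity -/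

lemma Elem.symm' {X Y : Σ n : ℕ, Matrix (Fin n) (Fin n) ℕ} (h : Elem X Y) : Elem Y X := by
  obtain ⟨R, S, h1, h2⟩ := h
  exact ⟨S, R, h2, h1⟩

lemma transGen_symm {X Y : Σ n : ℕ, Matrix (Fin n) (Fin n) ℕ}
    (h : Relation.TransGen Elem X Y) : Relation.TransGen Elem Y X := by
  induction h with
  | single h => exact Relation.TransGen.single h.symm'
  | tail _ h ih => exact Relation.TransGen.head h.symm' ih

lemma SSE.refl {n : ℕ} (A : Matrix (Fin n) (Fin n) ℕ) : SSE A A :=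
  Relation.TransGen.single ⟨A, 1, by simp, by simp⟩

lemma SSE.symm {n m : ℕ} {A : Matrix (Fin n) (Fin n) ℕ} {B : Matrix (Fin m) (Fin m) ℕ}
    (h : SSE A B) : SSE B A :=
  transGen_symm h

lemma SSE.trans {n m k : ℕ} {A : Matrix (Fin n) (Fin n) ℕ} {B : Matrix (Fin m) (Fin m) ℕ}
    {C : Matrix (Fin k) (Fin k) ℕ} (h : SSE A B) (h' : SSE B C) : SSE A C :=
  Relation.TransGen.trans h h'

/-- Nonnegative integer matrices as matrices over `ℕ`, on `Fin a`. -/
def toN {ι : Type} {a : ℕ} (e : ι ≃ Fin a) (A : Matrix ι ι ℤ) : Matrix (Fin a) (Fin a) ℕ :=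
  (A.submatrix e.symm e.symm).map Int.toNat

lemma toNat_mul {ι κ ν : Type} [Fintype κ] (U : Matrix ι κ ℤ) (V : Matrix κ ν ℤ)
    (hU : ∀ i j, 0 ≤ U i j) (hV : ∀ i j, 0 ≤ V i j) :
    (U * V).map Int.toNat = U.map Int.toNat * V.map Int.toNat := by
  ext i j
  have h : ((U * V) i j) = (((U.map Int.toNat * V.map Int.toNat) i j : ℕ) : ℤ) := by
    simp only [Matrix.mul_apply, Matrix.map_apply, Nat.cast_sum, Nat.cast_mul]
    refine Finset.sum_congr rfl fun k _ => ?_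
    rw [Int.toNat_of_nonneg (hU i k), Int.toNat_of_nonneg (hV k j)]
  rw [Matrix.map_apply, h, Int.toNat_natCast]

lemma elem_int {ι ι' : Type} [Fintype ι] [Fintype ι'] {a b : ℕ} (e : ι ≃ Fin a) (e' : ι' ≃ Fin b)
    (U : Matrix ι ι' ℤ) (V : Matrix ι' ι ℤ) (hU : ∀ i j, 0 ≤ U i j) (hV : ∀ i j, 0 ≤ V i j) :
    Elem ⟨a, toN e (U * V)⟩ ⟨b, toN e' (V * U)⟩ := by
  refine ⟨(U.submatrix e.symm e'.symm).map Int.toNat,
    (V.submatrix e'.symm e.symm).map Int.toNat, ?_, ?_⟩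
  · have h := toNat_mul (U.submatrix e.symm e'.symm) (V.submatrix e'.symm e.symm)
      (fun i j => hU _ _) (fun i j => hV _ _)
    rw [Matrix.submatrix_mul_equiv] at h
    exact h
  · have h := toNat_mul (V.submatrix e'.symm e.symm) (U.submatrix e.symm e'.symm)
      (fun i j => hV _ _) (fun i j => hU _ _)
    rw [Matrix.submatrix_mul_equiv] at h
    exact h

/-- The two-step lemma. -/
lemma two_step {ι ι' κ : Type} [Fintype ι] [Fintype ι'] [Fintype κ] {a b : ℕ} (e : ι ≃ Fin a)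
    (e' : ι' ≃ Fin b) (P : Matrix ι κ ℤ) (Q : Matrix κ ι ℤ) (P' : Matrix ι' κ ℤ)
    (Q' : Matrix κ ι' ℤ) (hP : ∀ i j, 0 ≤ P i j) (hQ : ∀ i j, 0 ≤ Q i j)
    (hP' : ∀ i j, 0 ≤ P' i j) (hQ' : ∀ i j, 0 ≤ Q' i j) (h : Q * P = Q' * P') :
    SSE (toN e (P * Q)) (toN e' (P' * Q')) := by
  classical
  have h1 := elem_int e (Fintype.equivFin κ) P Q hP hQ
  have h2 := elem_int (Fintype.equivFin κ) e' Q' P' hQ' hP'
  rw [h] at h1
  exact (Relation.TransGen.single h1).tail h2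

/-- A bound for the entries of a matrix. -/
def bd {ι κ : Type} [Fintype ι] [Fintype κ] (M : Matrix ι κ ℤ) : ℤ := ∑ i, ∑ j, |M i j|

lemma abs_le_bd {ι κ : Type} [Fintype ι] [Fintype κ] (M : Matrix ι κ ℤ) (i : ι) (j : κ) :
    |M i j| ≤ bd M := by
  unfold bd
  calc |M i j| ≤ ∑ j, |M i j| :=
        Finset.single_le_sum (f := fun j => |M i j|) (fun _ _ => abs_nonneg _) (Finset.mem_univ j)
    _ ≤ _ := Finset.single_le_sum (f := fun i => ∑ j, |M i j|)
        (fun _ _ => Finset.sum_nonneg fun _ _ => abs_nonneg _) (Finset.mem_univ i)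

lemma bd_nonneg {ι κ : Type} [Fintype ι] [Fintype κ] (M : Matrix ι κ ℤ) : 0 ≤ bd M :=
  Finset.sum_nonneg fun _ _ => Finset.sum_nonneg fun _ _ => abs_nonneg _

lemma nonneg_of_bd {a c h : ℤ} (h1 : |a| ≤ h) (h2 : 0 < c) : 0 ≤ a + h * c := by
  have h3 := abs_le.mp h1
  have h4 : 0 ≤ h := (abs_nonneg a).trans h1
  nlinarith

/-- The single step. -/
theorem single {ι ι' : Type} [Fintype ι] [Fintype ι'] [DecidableEq ι'] {a b : ℕ}
    (e : ι ≃ Fin a) (e' : ι' ≃ Fin b) (R : Matrix ι ι' ℤ) (S : Matrix ι' ι ℤ)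
    (x : ι' → ℤ) (y : ι → ℤ) (hx : ∀ i, 0 < x i) (hy : ∀ j, 0 < y j)
    (hRx : ∀ i, 0 < (R *ᵥ x) i) (hyR : ∀ j, 0 < (y ᵥ* R) j) :
    ∃ g₀ : ℕ, ∀ g : ℤ, (g₀ : ℤ) ≤ g →
      (∀ i j, 0 ≤ (R * S + g • vecMulVec (R *ᵥ x) y) i j) ∧
      (∀ i j, 0 ≤ (S * R + g • vecMulVec x (y ᵥ* R)) i j) ∧
      SSE (toN e (R * S + g • vecMulVec (R *ᵥ x) y))
        (toN e' (S * R + g • vecMulVec x (y ᵥ* R))) := by
  obtain ⟨t, ht⟩ : ∃ t, t = bd R := ⟨_, rfl⟩
  obtain ⟨h, hh⟩ : ∃ h, h = bd S + bd (S * R) := ⟨_, rfl⟩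
  obtain ⟨X, hX⟩ : ∃ X, X = ∑ i, x i := ⟨_, rfl⟩
  have ht0 : 0 ≤ t := ht ▸ bd_nonneg R
  have hh0 : 0 ≤ h := by rw [hh]; exact add_nonneg (bd_nonneg _) (bd_nonneg _)
  have hX0 : 0 ≤ X := by rw [hX]; exact Finset.sum_nonneg fun i _ => (hx i).le
  -- row sums
  obtain ⟨σ, hσ⟩ : ∃ σ : Matrix Unit ι ℤ, σ = Matrix.of fun _ j => ∑ i, S i j := ⟨_, rfl⟩
  obtain ⟨σ', hσ'⟩ : ∃ σ' : Matrix Unit ι' ℤ, σ' = Matrix.of fun _ j => ∑ i, (S * R) i j :=
    ⟨_, rfl⟩
  obtain ⟨W, hW⟩ : ∃ W : Matrix ι' (Option ι') ℤ, W = Matrix.of fun i k =>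
      k.elim (x i) (fun j => t * x i + (1 : Matrix ι' ι' ℤ) i j) := ⟨_, rfl⟩
  refine ⟨(h * (1 + t * X) + t * (bd σ + bd σ')).toNat, fun g hg => ?_⟩
  have hg' : h * (1 + t * X) + t * (bd σ + bd σ') ≤ g := (Int.self_le_toNat _).trans hg
  obtain ⟨V, hV⟩ : ∃ V : Matrix (Option ι') ι ℤ, V = Matrix.of fun k j =>
      k.elim ((g - h * (1 + t * X)) * y j - t * ∑ i, S i j) (fun i => S i j + h * (x i * y j)) :=
    ⟨_, rfl⟩
  have e1 : W * V = S + g • vecMulVec x y := by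
    ext i j
    rw [Matrix.mul_apply, Fintype.sum_option, hW, hV]
    simp only [Matrix.of_apply, Option.elim, Matrix.add_apply, Matrix.smul_apply,
      Matrix.vecMulVec_apply, smul_eq_mul]
    have s1 : ∑ k, (t * x i + (1 : Matrix ι' ι' ℤ) i k) * (S k j + h * (x k * y j)) =
        t * x i * ∑ k, S k j + t * x i * (h * (X * y j)) + (S i j + h * (x i * y j)) := by
      have s2 : ∀ k, (t * x i + (1 : Matrix ι' ι' ℤ) i k) * (S k j + h * (x k * y j)) =
          t * x i * S k j + t * x i * (h * (x k * y j)) +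
            (if i = k then (S k j + h * (x k * y j)) else 0) := by
        intro k
        rw [Matrix.one_apply]
        split_ifs <;> ring
      rw [Finset.sum_congr rfl fun k _ => s2 k, Finset.sum_add_distrib, Finset.sum_add_distrib,
        Finset.sum_ite_eq, if_pos (Finset.mem_univ i), ← Finset.mul_sum, ← Finset.mul_sum,
        ← Finset.mul_sum, ← Finset.sum_mul, hX]
    rw [s1]
    ring
  have hWnn : ∀ i k, 0 ≤ W i k := by
    intro i k
    rw [hW]
    rcases k with _ | k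
    · exact (hx i).le
    · simp only [Matrix.of_apply, Option.elim, Matrix.one_apply]
      have := mul_nonneg ht0 (hx i).le
      split_ifs <;> linarith
  have hRW : ∀ i k, 0 ≤ (R * W) i k := by
    intro i k
    rw [Matrix.mul_apply, hW]
    rcases k with _ | k
    · simp only [Matrix.of_apply, Option.elim]
      exact (hRx i).le
    · simp only [Matrix.of_apply, Option.elim]
      have s1 : ∑ j, R i j * (t * x j + (1 : Matrix ι' ι' ℤ) j k) =
          R i k + t * (R *ᵥ x) i := by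
        have s2 : ∀ j, R i j * (t * x j + (1 : Matrix ι' ι' ℤ) j k) =
            (if j = k then R i j else 0) + t * (R i j * x j) := by
          intro j
          rw [Matrix.one_apply]
          split_ifs <;> ring
        rw [Finset.sum_congr rfl fun j _ => s2 j, Finset.sum_add_distrib, Finset.sum_ite_eq',
          if_pos (Finset.mem_univ k), ← Finset.mul_sum]
        rfl
      rw [s1]
      exact nonneg_of_bd (by rw [ht]; exact abs_le_bd R i k) (hRx i)
  have hσb : ∀ j, |∑ i, S i j| ≤ bd σ := fun j => by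
    have h1 : σ () j = ∑ i, S i j := by rw [hσ]; rfl
    rw [← h1]
    exact abs_le_bd σ () j
  have hσ'b : ∀ j, |∑ i, (S * R) i j| ≤ bd σ' := fun j => by
    have h1 : σ' () j = ∑ i, (S * R) i j := by rw [hσ']; rfl
    rw [← h1]
    exact abs_le_bd σ' () j
  have hb1 := bd_nonneg σ
  have hb2 := bd_nonneg σ'
  have top : ∀ (s c : ℤ), |s| ≤ bd σ + bd σ' → 0 < c →
      0 ≤ (g - h * (1 + t * X)) * c - t * s := by
    intro s c hs hc
    have h1 : t * s ≤ t * (bd σ + bd σ') :=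
      mul_le_mul_of_nonneg_left ((le_abs_self s).trans hs) ht0
    have h2 : t * (bd σ + bd σ') ≤ g - h * (1 + t * X) := by linarith
    have h3 : 0 ≤ t * (bd σ + bd σ') := mul_nonneg ht0 (by linarith)
    nlinarith
  have hVnn : ∀ k j, 0 ≤ V k j := by
    intro k j
    rw [hV]
    rcases k with _ | k
    · exact top _ _ ((hσb j).trans (by linarith)) (hy j)
    · refine nonneg_of_bd ((abs_le_bd S k j).trans ?_) (mul_pos (hx k) (hy j))
      have := bd_nonneg (S * R)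
      linarith
  have hVR : ∀ k j, 0 ≤ (V * R) k j := by
    intro k j
    have s0 : ∑ l, y l * R l j = (y ᵥ* R) j := rfl
    rw [Matrix.mul_apply, hV]
    rcases k with _ | k
    · simp only [Matrix.of_apply, Option.elim]
      have s1 : ∑ l, ((g - h * (1 + t * X)) * y l - t * ∑ i, S i l) * R l j =
          (g - h * (1 + t * X)) * (y ᵥ* R) j - t * ∑ i, (S * R) i j := by
        have s2 : ∑ i, (S * R) i j = ∑ l, (∑ i, S i l) * R l j := by
          simp only [Matrix.mul_apply, Finset.sum_mul]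
          exact Finset.sum_comm
        rw [s2, ← s0, Finset.mul_sum, Finset.mul_sum, ← Finset.sum_sub_distrib]
        exact Finset.sum_congr rfl fun l _ => by ring
      rw [s1]
      exact top _ _ ((hσ'b j).trans (by linarith)) (hyR j)
    · simp only [Matrix.of_apply, Option.elim]
      have s1 : ∑ l, (S k l + h * (x k * y l)) * R l j =
          (S * R) k j + h * (x k * (y ᵥ* R) j) := by
        rw [Matrix.mul_apply, ← s0, Finset.mul_sum, Finset.mul_sum, ← Finset.sum_add_distrib]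
        exact Finset.sum_congr rfl fun l _ => by ring
      rw [s1]
      refine nonneg_of_bd ((abs_le_bd (S * R) k j).trans ?_) (mul_pos (hx k) (hyR j))
      have := bd_nonneg S
      linarith
  have f1 : R * S + g • vecMulVec (R *ᵥ x) y = (R * W) * V := by
    rw [Matrix.mul_assoc, e1, Matrix.mul_add, Matrix.mul_smul, Matrix.mul_vecMulVec]
  have f2 : S * R + g • vecMulVec x (y ᵥ* R) = W * (V * R) := by
    rw [← Matrix.mul_assoc, e1, Matrix.add_mul, Matrix.smul_mul, Matrix.vecMulVec_mul]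
  rw [f1, f2]
  refine ⟨fun i j => ?_, fun i j => ?_, ?_⟩
  · rw [Matrix.mul_apply]
    exact Finset.sum_nonneg fun k _ => mul_nonneg (hRW i k) (hVnn k j)
  · rw [Matrix.mul_apply]
    exact Finset.sum_nonneg fun k _ => mul_nonneg (hWnn i k) (hVR k j)
  · exact two_step e e' (R * W) V W (V * R) hRW hVnn hWnn hVR (by rw [Matrix.mul_assoc])

/-! ### Positive models of marked matrices -/

/-- The pairing of the row with the column. -/
def kap (P : Marked) : ℤ := P.y ⬝ᵥ P.x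

/-- The slope of the model. -/
def sl (P : Marked) : ℤ := 1 + ∑ i, |P.y i|

/-- The projection of the model. -/
def Rm (P : Marked) (T : ℤ) : Matrix (Fin P.n) (Fin P.n ⊕ Bool) ℤ :=
  Matrix.of fun i k => Sum.elim (fun j => (1 : Matrix (Fin P.n) (Fin P.n) ℤ) i j + sl P * P.x i)
    (fun b => if b then (T - 1 - P.n * sl P) * P.x i - 1 else P.x i) k

/-- The section of the model. -/
def Em (P : Marked) : Matrix (Fin P.n ⊕ Bool) (Fin P.n) ℤ :=
  Matrix.of fun k j => Sum.elim (fun i => (1 : Matrix (Fin P.n) (Fin P.n) ℤ) i j)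
    (fun b => if b then 0 else - sl P) k

/-- The last coordinate. -/
def lst (P : Marked) : Fin P.n ⊕ Bool → ℤ := Pi.single (Sum.inr true) 1

lemma Rm_mul_Em (P : Marked) (T : ℤ) : Rm P T * Em P = 1 := by
  ext i j
  rw [Matrix.mul_apply, Fintype.sum_sum_type, Fintype.sum_bool]
  simp only [Rm, Em, Matrix.of_apply, Sum.elim_inl, Sum.elim_inr, if_true, Bool.false_eq_true,
    if_false, mul_zero, zero_add]
  have s1 : ∑ k, ((1 : Matrix (Fin P.n) (Fin P.n) ℤ) i k + sl P * P.x i) *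
      (1 : Matrix (Fin P.n) (Fin P.n) ℤ) k j =
      (1 : Matrix (Fin P.n) (Fin P.n) ℤ) i j + sl P * P.x i := by
    rw [Finset.sum_eq_single j]
    · simp
    · intro b _ hb
      simp [Matrix.one_apply, hb]
    · intro h
      exact absurd (Finset.mem_univ j) h
  rw [s1]
  ring

lemma Rm_mulVec_one (P : Marked) (T : ℤ) : Rm P T *ᵥ (fun _ => 1) = T • P.x := by
  ext i
  simp only [Matrix.mulVec, dotProduct, Fintype.sum_sum_type, Fintype.sum_bool, mul_one]
  simp only [Rm, Matrix.of_apply, Sum.elim_inl, Sum.elim_inr, if_true, Bool.false_eq_true,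
    if_false]
  have s1 : ∑ k, ((1 : Matrix (Fin P.n) (Fin P.n) ℤ) i k + sl P * P.x i) =
      1 + P.n * (sl P * P.x i) := by
    rw [Finset.sum_add_distrib]
    simp [Matrix.one_apply]
  rw [s1]
  simp only [Pi.smul_apply, smul_eq_mul]
  ring

lemma lst_vecMul_Em (P : Marked) : lst P ᵥ* Em P = 0 := by
  ext j
  simp [lst, Em, Matrix.vecMul, dotProduct, Pi.single_apply]

lemma lst_one (P : Marked) : lst P ⬝ᵥ (fun _ => 1) = 1 := by
  simp [lst, dotProduct, Pi.single_apply]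

/-- The row of the model. -/
lemma row_pos (P : Marked) (hk : 0 < kap P) :
    ∃ T₀ : ℤ, ∀ T, T₀ ≤ T → ∀ k, 0 < (P.y ᵥ* Rm P T) k := by
  have hY : 0 ≤ ∑ i, |P.y i| := Finset.sum_nonneg fun _ _ => abs_nonneg _
  have hYi : ∀ j, -P.y j ≤ ∑ i, |P.y i| := fun j =>
    (neg_le_abs _).trans (Finset.single_le_sum (f := fun i => |P.y i|)
      (fun _ _ => abs_nonneg _) (Finset.mem_univ j))
  have hYs : ∑ i, P.y i ≤ ∑ i, |P.y i| := Finset.sum_le_sum fun i _ => le_abs_self _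
  refine ⟨2 + P.n * sl P + ∑ i, |P.y i|, fun T hT k => ?_⟩
  rcases k with j | b
  · have s1 : (P.y ᵥ* Rm P T) (Sum.inl j) = P.y j + sl P * kap P := by
      simp only [Matrix.vecMul, dotProduct, Rm, Matrix.of_apply, Sum.elim_inl, kap]
      have s2 : ∀ i, P.y i * ((1 : Matrix (Fin P.n) (Fin P.n) ℤ) i j + sl P * P.x i) =
          (if i = j then P.y i else 0) + sl P * (P.y i * P.x i) := by
        intro i
        rw [Matrix.one_apply]
        split_ifs <;> ring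
      rw [Finset.sum_congr rfl fun i _ => s2 i, Finset.sum_add_distrib, Finset.sum_ite_eq',
        if_pos (Finset.mem_univ j), ← Finset.mul_sum]
    rw [s1]
    have h1 := hYi j
    have h2 : sl P * 1 ≤ sl P * kap P := by
      refine mul_le_mul_of_nonneg_left (by linarith) ?_
      unfold sl; linarith
    unfold sl at h2 ⊢
    linarith
  · cases b
    · have s1 : (P.y ᵥ* Rm P T) (Sum.inr false) = kap P := by
        simp only [Matrix.vecMul, dotProduct, Rm, Matrix.of_apply, Sum.elim_inr, kap,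
          Bool.false_eq_true, if_false]
      rw [s1]
      exact hk
    · have s1 : (P.y ᵥ* Rm P T) (Sum.inr true) =
          (T - 1 - P.n * sl P) * kap P - ∑ i, P.y i := by
        simp only [Matrix.vecMul, dotProduct, Rm, Matrix.of_apply, Sum.elim_inr, kap, if_true]
        rw [Finset.mul_sum, ← Finset.sum_sub_distrib]
        exact Finset.sum_congr rfl fun i _ => by ring
      rw [s1]
      have h2 : (T - 1 - P.n * sl P) * 1 ≤ (T - 1 - P.n * sl P) * kap P :=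
        mul_le_mul_of_nonneg_left (by linarith) (by linarith)
      linarith

/-- The model with parameters `T`, `r`, `g`. -/
def Mod (P : Marked) (T r g : ℤ) : Matrix (Fin P.n ⊕ Bool) (Fin P.n ⊕ Bool) ℤ :=
  Em P * (P.N + r • vecMulVec P.x P.y) * Rm P T +
    g • vecMulVec (fun _ => 1) (P.y ᵥ* Rm P T)

/-- The model over `ℕ`. -/
noncomputable def ModN (P : Marked) (T r g : ℤ) :=
  toN (Fintype.equivFin (Fin P.n ⊕ Bool)) (Mod P T r g)

/-- The first step: from a marked matrix to its model. -/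
lemma start (P : Marked) (hx : ∀ i, 0 < P.x i) (hy : ∀ i, 0 < P.y i) (T : ℤ) (hT : 0 < T)
    (hR : ∀ k, 0 < (P.y ᵥ* Rm P T) k) (r : ℤ) :
    ∃ g₀ : ℕ, ∀ g : ℤ, (g₀ : ℤ) ≤ g →
      (∀ i j, 0 ≤ (P.N + (r + T * g) • vecMulVec P.x P.y) i j) ∧
      SSE (toN (Equiv.refl _) (P.N + (r + T * g) • vecMulVec P.x P.y)) (ModN P T r g) := by
  obtain ⟨g₀, hg₀⟩ := single (Equiv.refl (Fin P.n)) (Fintype.equivFin (Fin P.n ⊕ Bool)) (Rm P T)
    (Em P * (P.N + r • vecMulVec P.x P.y)) (fun _ => 1) P.y (fun _ => one_pos) hy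
    (fun i => by
      rw [Rm_mulVec_one]
      exact mul_pos hT (hx i)) hR
  refine ⟨g₀, fun g hg => ?_⟩
  obtain ⟨h1, _, h3⟩ := hg₀ g hg
  have e1 : Rm P T * (Em P * (P.N + r • vecMulVec P.x P.y)) +
      g • vecMulVec (Rm P T *ᵥ fun _ => 1) P.y = P.N + (r + T * g) • vecMulVec P.x P.y := by
    rw [← Matrix.mul_assoc, Rm_mul_Em, Matrix.one_mul, Rm_mulVec_one, Matrix.smul_vecMulVec,
      add_assoc, smul_smul, ← add_smul, mul_comm g T]
  rw [e1] at h1 h3
  exact ⟨h1, h3⟩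

/-- The middle steps. -/
lemma middle (P Q : Marked) (h : MElem P Q) (hk : 0 < kap P) :
    ∃ T₀ : ℤ, ∀ T, T₀ ≤ T → ∀ r : ℤ, ∃ g₀ : ℕ, ∀ g : ℤ, (g₀ : ℤ) ≤ g →
      SSE (ModN P T r g) (ModN Q T r g) := by
  obtain ⟨R, S, hN, hN', hx, hy⟩ := h
  have hk' : 0 < kap Q := by
    have : kap Q = kap P := by
      unfold kap
      rw [hx, hy, Matrix.dotProduct_mulVec]
    rw [this]; exact hk
  obtain ⟨T₁, hT₁⟩ := row_pos P hk
  obtain ⟨T₂, hT₂⟩ := row_pos Q hk'
  refine ⟨max T₁ T₂, fun T hT r => ?_⟩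
  have hR1 := hT₁ T ((le_max_left _ _).trans hT)
  have hR2 := hT₂ T ((le_max_right _ _).trans hT)
  obtain ⟨k, hkk⟩ : ∃ k : Fin P.n ⊕ Bool → ℤ, k = (fun _ => 1) - T • (Em P *ᵥ P.x) := ⟨_, rfl⟩
  obtain ⟨X, hX⟩ : ∃ X, X = Em P * R * Rm Q T + vecMulVec k (lst Q) := ⟨_, rfl⟩
  obtain ⟨Y, hY⟩ : ∃ Y, Y = Em Q * (S + r • vecMulVec Q.x P.y) * Rm P T := ⟨_, rfl⟩
  have k0 : Rm P T *ᵥ k = 0 := by
    rw [hkk, Matrix.mulVec_sub, Matrix.mulVec_smul, Matrix.mulVec_mulVec, Rm_mul_Em,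
      Matrix.one_mulVec, Rm_mulVec_one, sub_self]
  have a1 : X *ᵥ (fun _ => 1) = fun _ => 1 := by
    have b1 : vecMulVec k (lst Q) *ᵥ (fun _ => 1) = k := by
      ext i
      simp only [Matrix.mulVec, dotProduct, Matrix.vecMulVec_apply]
      have := lst_one Q
      simp only [dotProduct] at this
      calc ∑ j, k i * lst Q j * 1 = k i * ∑ j, lst Q j * 1 := by
            rw [Finset.mul_sum]; exact Finset.sum_congr rfl fun j _ => by ring
        _ = k i := by rw [this, mul_one]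
    rw [hX, Matrix.add_mulVec, b1, ← Matrix.mulVec_mulVec, Rm_mulVec_one, ← Matrix.mulVec_mulVec,
      Matrix.mulVec_smul, ← hx, Matrix.mulVec_smul, hkk]
    abel
  have a2 : Rm P T * X = R * Rm Q T := by
    rw [hX, Matrix.mul_add, Matrix.mul_vecMulVec, k0, Matrix.zero_vecMulVec, add_zero,
      ← Matrix.mul_assoc, ← Matrix.mul_assoc, Rm_mul_Em, Matrix.one_mul]
  have z : vecMulVec k (0 : Fin Q.n → ℤ) = 0 := by
    ext i j
    simp [Matrix.vecMulVec_apply]
  have a3 : X * Em Q = Em P * R := by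
    rw [hX, Matrix.add_mul, Matrix.vecMulVec_mul, lst_vecMul_Em, z, add_zero,
      Matrix.mul_assoc, Rm_mul_Em, Matrix.mul_one]
  have a4 : (P.y ᵥ* Rm P T) ᵥ* X = Q.y ᵥ* Rm Q T := by
    rw [Matrix.vecMul_vecMul, a2, ← Matrix.vecMul_vecMul, hy]
  have a5 : X * Y = Em P * (P.N + r • vecMulVec P.x P.y) * Rm P T := by
    rw [hY, ← Matrix.mul_assoc, ← Matrix.mul_assoc, a3, Matrix.mul_assoc (Em P) R,
      Matrix.mul_add, Matrix.mul_smul, Matrix.mul_vecMulVec, ← hN, ← hx]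
  have a6 : Y * X = Em Q * (Q.N + r • vecMulVec Q.x Q.y) * Rm Q T := by
    rw [hY, Matrix.mul_assoc, a2, ← Matrix.mul_assoc, Matrix.mul_assoc (Em Q),
      Matrix.add_mul, Matrix.smul_mul, Matrix.vecMulVec_mul, ← hN', ← hy]
  obtain ⟨g₀, hg₀⟩ := single (Fintype.equivFin (Fin P.n ⊕ Bool))
    (Fintype.equivFin (Fin Q.n ⊕ Bool)) X Y (fun _ => 1) (P.y ᵥ* Rm P T) (fun _ => one_pos) hR1
    (fun i => by rw [a1]; exact one_pos) (fun j => by rw [a4]; exact hR2 j)
  refine ⟨g₀, fun g hg => ?_⟩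
  obtain ⟨_, _, h3⟩ := hg₀ g hg
  rw [a1, a4, a5, a6] at h3
  exact h3

lemma kap_eq {P Q : Marked} (h : MElem P Q) : kap P = kap Q := by
  obtain ⟨R, S, hN, hN', hx, hy⟩ := h
  unfold kap
  rw [hx, hy, Matrix.dotProduct_mulVec]

/-- The chain of models. -/
lemma chain {P Q : Marked} (h : Relation.EqvGen MElem P Q) : kap P = kap Q ∧ (0 < kap P →
    ∃ T₀ : ℤ, ∀ T, T₀ ≤ T → ∀ r : ℤ, ∃ g₀ : ℕ, ∀ g : ℤ, (g₀ : ℤ) ≤ g →
      SSE (ModN P T r g) (ModN Q T r g)) := by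
  induction h with
  | rel P Q h => exact ⟨kap_eq h, middle P Q h⟩
  | refl P => exact ⟨rfl, fun _ => ⟨0, fun _ _ _ => ⟨0, fun _ _ => SSE.refl _⟩⟩⟩
  | symm P Q _ ih =>
    refine ⟨ih.1.symm, fun hk => ?_⟩
    obtain ⟨T₀, hT⟩ := ih.2 (by rw [ih.1]; exact hk)
    refine ⟨T₀, fun T hT' r => ?_⟩
    obtain ⟨g₀, hg⟩ := hT T hT' r
    exact ⟨g₀, fun g hg' => (hg g hg').symm⟩
  | trans P Q R _ _ ih1 ih2 =>
    refine ⟨ih1.1.trans ih2.1, fun hk => ?_⟩
    obtain ⟨T₁, hT₁⟩ := ih1.2 hk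
    obtain ⟨T₂, hT₂⟩ := ih2.2 (by rw [← ih1.1]; exact hk)
    refine ⟨max T₁ T₂, fun T hT r => ?_⟩
    obtain ⟨g₁, hg₁⟩ := hT₁ T ((le_max_left _ _).trans hT) r
    obtain ⟨g₂, hg₂⟩ := hT₂ T ((le_max_right _ _).trans hT) r
    refine ⟨max g₁ g₂, fun g hg => (hg₁ g ?_).trans (hg₂ g ?_)⟩
    · exact (Nat.cast_le.mpr (le_max_left _ _)).trans hg
    · exact (Nat.cast_le.mpr (le_max_right _ _)).trans hg

lemma toN_cast {n : ℕ} (A : Matrix (Fin n) (Fin n) ℤ) (h : ∀ i j, 0 ≤ A i j) :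
    (toN (Equiv.refl _) A).map (Nat.cast : ℕ → ℤ) = A := by
  ext i j
  simp only [toN, Matrix.map_apply, Matrix.submatrix_apply, Equiv.refl_symm, Equiv.refl_apply]
  exact Int.toNat_of_nonneg (h i j)

/-! ### Marked shift equivalence over `ℤ` -/

/-- The marked matrix of an endomorphism, a vector and a linear form in a basis. -/
noncomputable def mkM {V : Type} [AddCommGroup V] {n : ℕ} (b : Module.Basis (Fin n) ℤ V)
    (f : V →ₗ[ℤ] V) (x : V) (y : V →ₗ[ℤ] ℤ) : Marked :=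
  ⟨n, LinearMap.toMatrix b b f, fun i => b.repr x i, fun i => y (b i)⟩

lemma elem_abs {V W : Type} [AddCommGroup V] [AddCommGroup W] {n m : ℕ}
    (b : Module.Basis (Fin n) ℤ V) (c : Module.Basis (Fin m) ℤ W) (f : V →ₗ[ℤ] V)
    (f' : W →ₗ[ℤ] W) (ρ : W →ₗ[ℤ] V) (τ : V →ₗ[ℤ] W) (h1 : f = ρ ∘ₗ τ) (h2 : f' = τ ∘ₗ ρ)
    (x' : W) (y : V →ₗ[ℤ] ℤ) : MElem (mkM b f (ρ x') y) (mkM c f' x' (y ∘ₗ ρ)) := by
  refine ⟨LinearMap.toMatrix c b ρ, LinearMap.toMatrix b c τ, ?_, ?_, ?_, ?_⟩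
  · change LinearMap.toMatrix b b f = _
    rw [h1, LinearMap.toMatrix_comp b c b]
    rfl
  · change LinearMap.toMatrix c c f' = _
    rw [h2, LinearMap.toMatrix_comp c b c]
    rfl
  · change (fun i => b.repr (ρ x') i) = _ *ᵥ (fun i => c.repr x' i)
    have := LinearMap.toMatrix_mulVec_repr c b ρ x'
    exact this.symm
  · change (fun i => (y ∘ₗ ρ) (c i)) = (fun i => y (b i)) ᵥ* _
    ext j
    rw [LinearMap.comp_apply, ← b.sum_repr (ρ (c j)), map_sum]
    simp only [Matrix.vecMul, dotProduct, LinearMap.toMatrix_apply, map_smul, smul_eq_mul]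
    exact Finset.sum_congr rfl fun i _ => mul_comm _ _

lemma inj_base {V W : Type} [AddCommGroup V] [AddCommGroup W] {n m : ℕ}
    (b : Module.Basis (Fin n) ℤ V) (c : Module.Basis (Fin m) ℤ W) (f : V →ₗ[ℤ] V)
    (f' : W →ₗ[ℤ] W) (ι : W →ₗ[ℤ] V) (x' : W) (y : V →ₗ[ℤ] ℤ) (hι : Function.Injective ι)
    (hc : ∀ w, ι (f' w) = f (ι w)) (hr : ∀ v, f v ∈ LinearMap.range ι) :
    MElem (mkM b f (ι x') y) (mkM c f' x' (y ∘ₗ ι)) := by
  have key : ∀ v, ι ((LinearEquiv.ofInjective ι hι).symm ⟨f v, hr v⟩) = f v := fun v =>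
    congrArg Subtype.val ((LinearEquiv.ofInjective ι hι).apply_symm_apply ⟨f v, hr v⟩)
  refine elem_abs b c f f' ι ((LinearEquiv.ofInjective ι hι).symm.toLinearMap ∘ₗ
    f.codRestrict (LinearMap.range ι) hr) ?_ ?_ x' y
  · ext v
    exact (key v).symm
  · ext w
    apply hι
    exact (hc w).trans (key (ι w)).symm

lemma pow_comm_map {V W : Type} [AddCommGroup V] [AddCommGroup W] (f : V →ₗ[ℤ] V)
    (f' : W →ₗ[ℤ] W) (ι : W →ₗ[ℤ] V) (hc : ∀ w, ι (f' w) = f (ι w)) (k : ℕ) :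
    ∀ w, ι ((f' ^ k) w) = (f ^ k) (ι w) := by
  induction k with
  | zero => intro w; simp
  | succ k ih =>
    intro w
    rw [pow_succ, pow_succ, Module.End.mul_apply, Module.End.mul_apply, ih, hc]

lemma inj_part (l : ℕ) : ∀ (V W : Type) [AddCommGroup V] [Module.Free ℤ V] [Module.Finite ℤ V]
    [AddCommGroup W] (n m : ℕ) (b : Module.Basis (Fin n) ℤ V) (c : Module.Basis (Fin m) ℤ W)
    (f : V →ₗ[ℤ] V) (f' : W →ₗ[ℤ] W) (ι : W →ₗ[ℤ] V) (x' : W) (y : V →ₗ[ℤ] ℤ),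
    Function.Injective ι → (∀ w, ι (f' w) = f (ι w)) →
    (∀ v, (f ^ (l + 1)) v ∈ LinearMap.range ι) →
    Relation.EqvGen MElem (mkM b f (ι x') y) (mkM c f' x' (y ∘ₗ ι)) := by
  induction l with
  | zero =>
    intro V W _ _ _ _ n m b c f f' ι x' y hι hc hr
    exact Relation.EqvGen.rel _ _ (inj_base b c f f' ι x' y hι hc (by simpa using hr))
  | succ l ih =>
    intro V W _ _ _ _ n m b c f f' ι x' y hι hc hr
    obtain ⟨V', hV'⟩ : ∃ V' : Submodule ℤ V, V' = LinearMap.range ι ⊔ LinearMap.range f :=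
      ⟨_, rfl⟩
    have h1 : ∀ v, f v ∈ V' := fun v => by
      rw [hV']; exact Submodule.mem_sup_right ⟨v, rfl⟩
    have h2 : ∀ w, ι w ∈ V' := fun w => by
      rw [hV']; exact Submodule.mem_sup_left ⟨w, rfl⟩
    have s1 := inj_base b (Module.finBasis ℤ V') f (f.restrict (p := V') (q := V')
      (fun v _ => h1 v)) V'.subtype ⟨ι x', h2 x'⟩ y V'.injective_subtype (fun w => rfl)
      (fun v => by rw [Submodule.range_subtype]; exact h1 v)
    have s2 := ih V' W _ m (Module.finBasis ℤ V') c (f.restrict (p := V') (q := V')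
      (fun v _ => h1 v)) f' (ι.codRestrict V' h2) x' (y ∘ₗ V'.subtype)
      (fun w w' h => hι (congrArg Subtype.val h)) (fun w => Subtype.ext (hc w)) (by
        intro v'
        have h3 : ((v' : V')  : V) ∈ LinearMap.range ι ⊔ LinearMap.range f := by
          rw [← hV']; exact v'.2
        obtain ⟨a, ⟨w, hw⟩, d, ⟨u, hu⟩, had⟩ := Submodule.mem_sup.mp h3
        obtain ⟨z, hz⟩ := hr u
        refine ⟨(f' ^ (l + 1)) w + z, Subtype.ext ?_⟩
        have h4 := pow_comm_map f (f.restrict (p := V') (q := V') (fun v _ => h1 v)) V'.subtype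
          (fun w => rfl) (l + 1) v'
        have h5 := pow_comm_map f f' ι hc (l + 1) w
        change ι ((f' ^ (l + 1)) w + z) = V'.subtype _
        rw [h4, map_add, h5, hz, hw]
        change _ = (f ^ (l + 1)) (v' : V)
        rw [← had, map_add, ← hu, pow_succ f (l + 1), Module.End.mul_apply])
    exact (Relation.EqvGen.rel _ _ s1).trans _ _ _ s2

lemma surj_base {V W : Type} [AddCommGroup V] [Module.Free ℤ V] [AddCommGroup W] {n m : ℕ}
    (b : Module.Basis (Fin n) ℤ V) (c : Module.Basis (Fin m) ℤ W) (f : V →ₗ[ℤ] V)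
    (f' : W →ₗ[ℤ] W) (π : W →ₗ[ℤ] V) (x' : W) (y : V →ₗ[ℤ] ℤ) (hπ : Function.Surjective π)
    (hc : ∀ w, π (f' w) = f (π w)) (hk : ∀ w, π w = 0 → f' w = 0) :
    MElem (mkM b f (π x') y) (mkM c f' x' (y ∘ₗ π)) := by
  obtain ⟨s, hs⟩ := Module.projective_lifting_property π (LinearMap.id : V →ₗ[ℤ] V) hπ
  have hs' : ∀ v, π (s v) = v := fun v => congrArg (fun g : V →ₗ[ℤ] V => g v) hs
  refine elem_abs b c f f' π (f' ∘ₗ s) ?_ ?_ x' y
  · ext v
    change f v = π (f' (s v))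
    rw [hc, hs']
  · ext w
    change f' w = f' (s (π w))
    have := hk (w - s (π w)) (by rw [map_sub, hs', sub_self])
    rw [map_sub] at this
    exact sub_eq_zero.mp this

lemma surj_part (l : ℕ) : ∀ (V W : Type) [AddCommGroup V] [Module.Free ℤ V] [Module.Finite ℤ V]
    [AddCommGroup W] [Module.Free ℤ W] [Module.Finite ℤ W] (n m : ℕ)
    (b : Module.Basis (Fin n) ℤ V) (c : Module.Basis (Fin m) ℤ W)
    (f : V →ₗ[ℤ] V) (f' : W →ₗ[ℤ] W) (π : W →ₗ[ℤ] V) (x' : W) (y : V →ₗ[ℤ] ℤ),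
    Function.Surjective π → (∀ w, π (f' w) = f (π w)) →
    (∀ w, π w = 0 → (f' ^ (l + 1)) w = 0) →
    Relation.EqvGen MElem (mkM b f (π x') y) (mkM c f' x' (y ∘ₗ π)) := by
  induction l with
  | zero =>
    intro V W _ _ _ _ _ _ n m b c f f' π x' y hπ hc hk
    exact Relation.EqvGen.rel _ _ (surj_base b c f f' π x' y hπ hc (by simpa using hk))
  | succ l ih =>
    intro V W _ _ _ _ _ _ n m b c f f' π x' y hπ hc hk
    obtain ⟨V', hV'⟩ : ∃ V' : Submodule ℤ (V × W), V' = LinearMap.range (π.prod f') := ⟨_, rfl⟩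
    have h1 : ∀ w, (π w, f' w) ∈ V' := fun w => by
      rw [hV']; exact ⟨w, rfl⟩
    have h2 : ∀ v ∈ V', ∃ w, v = (π w, f' w) := fun v hv => by
      rw [hV'] at hv
      obtain ⟨w, hw⟩ := hv
      exact ⟨w, hw.symm⟩
    have h3 : ∀ v ∈ V', (f.prodMap f') v ∈ V' := fun v hv => by
      obtain ⟨w, rfl⟩ := h2 v hv
      have := h1 (f' w)
      rw [hc] at this
      exact this
    obtain ⟨σ, hσ⟩ : ∃ σ : W →ₗ[ℤ] V', σ = (π.prod f').codRestrict V' h1 := ⟨_, rfl⟩
    obtain ⟨F, hF⟩ : ∃ F : V' →ₗ[ℤ] V', F = (f.prodMap f').restrict h3 := ⟨_, rfl⟩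
    have hσ1 : ∀ w, ((σ w : V') : V × W) = (π w, f' w) := fun w => by rw [hσ]; rfl
    have hF1 : ∀ v : V', ((F v : V') : V × W) = (f (v : V × W).1, f' (v : V × W).2) := fun v => by
      rw [hF]; rfl
    have hσs : ∀ v : V', ∃ w, v = σ w := fun v => by
      obtain ⟨w, hw⟩ := h2 v.1 v.2
      exact ⟨w, Subtype.ext (by rw [hσ1]; exact hw)⟩
    have hFσ : ∀ w, σ (f' w) = F (σ w) := fun w => by
      apply Subtype.ext
      rw [hF1, hσ1, hσ1, hc]
    have s1 := elem_abs (Module.finBasis ℤ V') c F f' σ ((LinearMap.snd ℤ V W) ∘ₗ V'.subtype)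
      (by
        refine LinearMap.ext fun v => ?_
        obtain ⟨w, rfl⟩ := hσs v
        change F (σ w) = σ ((σ w : V') : V × W).2
        rw [hσ1, hFσ])
      (by
        refine LinearMap.ext fun w => ?_
        change f' w = ((σ w : V') : V × W).2
        rw [hσ1]) x' (y ∘ₗ ((LinearMap.fst ℤ V W) ∘ₗ V'.subtype))
    have s2 := ih V V' n _ b (Module.finBasis ℤ V') f F ((LinearMap.fst ℤ V W) ∘ₗ V'.subtype)
      (σ x') y (by
        intro v
        obtain ⟨w, hw⟩ := hπ v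
        refine ⟨σ w, ?_⟩
        change ((σ w : V') : V × W).1 = v
        rw [hσ1]; exact hw)
      (by
        intro v
        change ((F v : V') : V × W).1 = f (v : V × W).1
        rw [hF1])
      (by
        intro v hv
        obtain ⟨w, rfl⟩ := hσs v
        have hv' : ((σ w : V') : V × W).1 = 0 := hv
        rw [hσ1] at hv'
        have hv2 : π w = 0 := hv'
        rw [← pow_comm_map F f' σ hFσ (l + 1) w]
        apply Subtype.ext
        rw [hσ1, pow_comm_map f f' π hc (l + 1) w, hv2, map_zero]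
        have h6 := hk w hv2
        rw [pow_succ', Module.End.mul_apply] at h6
        rw [h6]
        rfl)
    have e1 : ((LinearMap.fst ℤ V W) ∘ₗ V'.subtype) (σ x') = π x' := by
      change ((σ x' : V') : V × W).1 = _
      rw [hσ1]
    have e2 : (y ∘ₗ ((LinearMap.fst ℤ V W) ∘ₗ V'.subtype)) ∘ₗ σ = y ∘ₗ π := by
      refine LinearMap.ext fun w => ?_
      change y ((σ w : V') : V × W).1 = y (π w)
      rw [hσ1]
    rw [e1] at s2
    rw [e2] at s1
    exact s2.trans _ _ _ (Relation.EqvGen.rel _ _ s1)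

/-- Shift equivalence over `ℤ` of marked matrices: `N R = R N'`, `S N = N' S`, `R S = N ^ l`,
`S R = N' ^ l`, `x = R x'`, `y' = y R`. -/
def MSE (P Q : Marked) : Prop :=
  ∃ (l : ℕ) (R : Matrix (Fin P.n) (Fin Q.n) ℤ) (S : Matrix (Fin Q.n) (Fin P.n) ℤ),
    P.N * R = R * Q.N ∧ S * P.N = Q.N * S ∧ P.N ^ l = R * S ∧ Q.N ^ l = S * R ∧
    P.x = R *ᵥ Q.x ∧ Q.y = P.y ᵥ* R

/-- The linear form of a row. -/
noncomputable def form (P : Marked) : (Fin P.n → ℤ) →ₗ[ℤ] ℤ :=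
  (Pi.basisFun ℤ (Fin P.n)).constr ℤ P.y

lemma form_apply (P : Marked) (v : Fin P.n → ℤ) : form P v = P.y ⬝ᵥ v := by
  unfold form
  rw [Module.Basis.constr_apply_fintype]
  simp [dotProduct, mul_comm]

lemma mkM_std (P : Marked) :
    mkM (Pi.basisFun ℤ (Fin P.n)) (Matrix.toLin' P.N) P.x (form P) = P := by
  obtain ⟨n, N, x, y⟩ := P
  unfold mkM
  congr 1
  · rw [LinearMap.toMatrix_eq_toMatrix', LinearMap.toMatrix'_toLin']
  · ext i
    unfold form
    rw [Module.Basis.constr_basis]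

lemma eqvGen_of_MSE {P Q : Marked} (h : MSE P Q) : Relation.EqvGen MElem P Q := by
  obtain ⟨l, R, S, h1, h2, h3, h4, hx, hy⟩ := h
  obtain ⟨ρ, hρ⟩ : ∃ ρ, ρ = Matrix.toLin' R := ⟨_, rfl⟩
  obtain ⟨f, hf⟩ : ∃ f, f = Matrix.toLin' P.N := ⟨_, rfl⟩
  obtain ⟨f', hf'⟩ : ∃ f', f' = Matrix.toLin' Q.N := ⟨_, rfl⟩
  have c1 : ∀ w, ρ (f' w) = f (ρ w) := fun w => by
    rw [hρ, hf, hf', Matrix.toLin'_apply, Matrix.toLin'_apply, Matrix.toLin'_apply,
      Matrix.toLin'_apply, Matrix.mulVec_mulVec, Matrix.mulVec_mulVec, h1]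
  have c2 : ∀ v, (f ^ l) v = ρ (S *ᵥ v) := fun v => by
    rw [hf, ← Matrix.toLin'_pow, h3, hρ, Matrix.toLin'_apply, Matrix.toLin'_apply,
      Matrix.mulVec_mulVec]
  have c3 : ∀ w, (f' ^ l) w = S *ᵥ (ρ w) := fun w => by
    rw [hf', ← Matrix.toLin'_pow, h4, hρ, Matrix.toLin'_apply, Matrix.toLin'_apply,
      Matrix.mulVec_mulVec]
  obtain ⟨V, hV⟩ : ∃ V, V = LinearMap.range ρ := ⟨_, rfl⟩
  have hρV : ∀ w, ρ w ∈ V := fun w => by rw [hV]; exact ⟨w, rfl⟩
  have hfV : ∀ v ∈ V, f v ∈ V := fun v hv => by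
    rw [hV] at hv
    obtain ⟨w, rfl⟩ := hv
    rw [← c1]
    exact hρV _
  have s1 := inj_part l _ _ _ _ (Pi.basisFun ℤ (Fin P.n)) (Module.finBasis ℤ V) f
    (f.restrict hfV) V.subtype ⟨ρ Q.x, hρV _⟩ (form P) V.injective_subtype (fun w => rfl)
    (fun v => by
      rw [Submodule.range_subtype, pow_succ, Module.End.mul_apply, c2]
      exact hρV _)
  have s2 := surj_part l _ _ _ _ (Module.finBasis ℤ V) (Pi.basisFun ℤ (Fin Q.n))
    (f.restrict hfV) f' (ρ.codRestrict V hρV) Q.x (form P ∘ₗ V.subtype)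
    (fun v => by
      obtain ⟨w, hw⟩ : ∃ w, ρ w = (v : Fin P.n → ℤ) := (le_of_eq hV) v.2
      exact ⟨w, Subtype.ext hw⟩)
    (fun w => Subtype.ext (c1 w))
    (fun w hw => by
      have h5 : ρ w = 0 := congrArg Subtype.val hw
      rw [pow_succ', Module.End.mul_apply, c3, h5, Matrix.mulVec_zero, map_zero])
  have e0 : V.subtype (⟨ρ Q.x, hρV _⟩ : V) = P.x := by
    change ρ Q.x = P.x
    rw [hx, hρ, Matrix.toLin'_apply]
  have e1 : (form P ∘ₗ V.subtype) ∘ₗ (ρ.codRestrict V hρV) = form Q := by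
    refine LinearMap.ext fun w => ?_
    change form P (ρ w) = form Q w
    rw [form_apply, form_apply, hy, hρ, Matrix.toLin'_apply, Matrix.dotProduct_mulVec]
  have e3 : mkM (Pi.basisFun ℤ (Fin P.n)) f P.x (form P) = P := by rw [hf]; exact mkM_std P
  have e4 : mkM (Pi.basisFun ℤ (Fin Q.n)) f' Q.x (form Q) = Q := by rw [hf']; exact mkM_std Q
  rw [e0, e3] at s1
  rw [e1, e4] at s2
  exact s1.trans _ _ _ s2

/-- If two marked integer matrices with positive rows and columns are joined by a chain of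
elementary equivalences over `ℤ` of marked matrices, then `N + g x y` and `N' + g x' y'` have
nonnegative entries and are strong shift equivalent over `ℕ` for all sufficiently large `g`. -/
theorem main (P Q : Marked) (h : Relation.EqvGen MElem P Q) (hP : 0 < P.n)
    (hPx : ∀ i, 0 < P.x i) (hPy : ∀ i, 0 < P.y i) (hQx : ∀ i, 0 < Q.x i)
    (hQy : ∀ i, 0 < Q.y i) :
    ∃ g₀ : ℕ, ∀ g : ℕ, g₀ ≤ g →
      ∃ (A : Matrix (Fin P.n) (Fin P.n) ℕ) (B : Matrix (Fin Q.n) (Fin Q.n) ℕ),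
        A.map (Nat.cast : ℕ → ℤ) = P.N + (g : ℤ) • vecMulVec P.x P.y ∧
        B.map (Nat.cast : ℕ → ℤ) = Q.N + (g : ℤ) • vecMulVec Q.x Q.y ∧ SSE A B := by
  have hk : 0 < kap P := by
    have : Nonempty (Fin P.n) := ⟨⟨0, hP⟩⟩
    exact Finset.sum_pos (fun i _ => mul_pos (hPy i) (hPx i)) Finset.univ_nonempty
  obtain ⟨hkk, hch⟩ := chain h
  obtain ⟨T₀, hT₀⟩ := hch hk
  obtain ⟨T₁, hT₁⟩ := row_pos P hk
  obtain ⟨T₂, hT₂⟩ := row_pos Q (by rw [← hkk]; exact hk)
  obtain ⟨T, hT⟩ : ∃ T : ℤ, T = max (max T₀ 1) (max T₁ T₂) := ⟨_, rfl⟩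
  have t0 : T₀ ≤ T := by
    rw [hT]; exact (le_max_left _ _).trans (le_max_left _ _)
  have t1 : 1 ≤ T := by
    rw [hT]; exact (le_max_right _ _).trans (le_max_left _ _)
  have t2 : T₁ ≤ T := by
    rw [hT]; exact (le_max_left _ _).trans (le_max_right _ _)
  have t3 : T₂ ≤ T := by
    rw [hT]; exact (le_max_right _ _).trans (le_max_right _ _)
  choose f hf using fun r : ℤ => hT₀ T t0 r
  choose fP hfP using fun r : ℤ => start P hPx hPy T (by linarith) (hT₁ T t2) r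
  choose fQ hfQ using fun r : ℤ => start Q hQx hQy T (by linarith) (hT₂ T t3) r
  obtain ⟨G, hG⟩ : ∃ G : ℕ, G = (Finset.range T.toNat).sup
      (fun r => f r + fP r + fQ r) := ⟨_, rfl⟩
  refine ⟨T.toNat * (G + 1), fun g hg => ?_⟩
  obtain ⟨τ, hτ⟩ : ∃ τ : ℕ, (τ : ℤ) = T := ⟨T.toNat, Int.toNat_of_nonneg (by linarith)⟩
  have hτ' : T.toNat = τ := by omega
  rw [hτ'] at hG hg
  have hτ0 : 0 < τ := by omega
  have hr : g % τ < τ := Nat.mod_lt _ hτ0
  have hd : G + 1 ≤ g / τ := (Nat.le_div_iff_mul_le hτ0).mpr (by rw [mul_comm]; exact hg)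
  have hle : f ((g % τ : ℕ) : ℤ) + fP ((g % τ : ℕ) : ℤ) + fQ ((g % τ : ℕ) : ℤ) ≤ G := by
    rw [hG]
    exact Finset.le_sup (f := fun r : ℕ => f r + fP r + fQ r) (Finset.mem_range.mpr hr)
  have hgg : (g : ℤ) = ((g % τ : ℕ) : ℤ) + T * ((g / τ : ℕ) : ℤ) := by
    rw [← hτ]
    exact_mod_cast (Nat.mod_add_div g τ).symm
  obtain ⟨p1, p2⟩ := hfP ((g % τ : ℕ) : ℤ) ((g / τ : ℕ) : ℤ) (by
    exact_mod_cast (by omega : fP ((g % τ : ℕ) : ℤ) ≤ g / τ))
  obtain ⟨q1, q2⟩ := hfQ ((g % τ : ℕ) : ℤ) ((g / τ : ℕ) : ℤ) (by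
    exact_mod_cast (by omega : fQ ((g % τ : ℕ) : ℤ) ≤ g / τ))
  have m1 := hf ((g % τ : ℕ) : ℤ) ((g / τ : ℕ) : ℤ) (by
    exact_mod_cast (by omega : f ((g % τ : ℕ) : ℤ) ≤ g / τ))
  rw [← hgg] at p1 p2 q1 q2
  exact ⟨_, _, toN_cast _ p1, toN_cast _ q1, (p2.trans m1).trans q2.symm⟩

lemma eqvGen_of_eqvGen {P Q : Marked} (h : Relation.EqvGen MSE P Q) :
    Relation.EqvGen MElem P Q := by
  induction h with
  | rel P Q h => exact eqvGen_of_MSE h
  | refl P => exact Relation.EqvGen.refl _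
  | symm P Q _ ih => exact ih.symm
  | trans P Q R _ _ ih1 ih2 => exact ih1.trans _ _ _ ih2

/-- If two marked integer matrices with positive rows and columns are joined by a chain of marked
shift equivalences over `ℤ`, then `N + g x y` and `N' + g x' y'` have nonnegative entries and are
strong shift equivalent over `ℕ` for all sufficiently large `g`. -/
theorem result (P Q : Marked) (h : Relation.EqvGen MSE P Q) (hP : 0 < P.n)
    (hPx : ∀ i, 0 < P.x i) (hPy : ∀ i, 0 < P.y i) (hQx : ∀ i, 0 < Q.x i)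
    (hQy : ∀ i, 0 < Q.y i) :
    ∃ g₀ : ℕ, ∀ g : ℕ, g₀ ≤ g →
      ∃ (A : Matrix (Fin P.n) (Fin P.n) ℕ) (B : Matrix (Fin Q.n) (Fin Q.n) ℕ),
        A.map (Nat.cast : ℕ → ℤ) = P.N + (g : ℤ) • vecMulVec P.x P.y ∧
        B.map (Nat.cast : ℕ → ℤ) = Q.N + (g : ℤ) • vecMulVec Q.x Q.y ∧ SSE A B :=
  main P Q (eqvGen_of_eqvGen h) hP hPx hPy hQx hQy

end Pool.Agent.Results.MP_993212_an.MarkedStrongShift
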